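import Pool.Agent.U309.ZF.Stm

/-!
# Project ZF, package DED2: Dedekind zeta functions, uniformly in the field (assembly)
-/

set_option autoImplicit false

open NumberField IsDedekindDomain

namespace Pool.Agent.U433.ZF

open Pool.Agent.U309.ZF

theorem ld_nonneg (K : Type) [Field K] [NumberField K] : 0 ≤ ld K := by
  unfold ld
  refine Real.log_nonneg ?_
  have h : NumberField.discr K ≠ 0 := NumberField.discr_ne_zero K
  have h1 : (1 : ℤ) ≤ |NumberField.discr K| := Int.one_le_abs h
  exact_mod_cast h1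

theorem one_le_log {μ : ℝ} : 1 ≤ Real.log (|μ| + 3) := by
  rw [Real.le_log_iff_exp_le (by positivity)]
  linarith [Real.exp_one_lt_d9, abs_nonneg μ]

theorem t_DED2 : S_DED2 := by
  intro hred hdeda n
  obtain ⟨C1, hC1, h1⟩ := hred n
  obtain ⟨C2, hC2, h2⟩ := hdeda n
  refine ⟨C1 + C2, by positivity, fun K _ _ hn δ μ hδ hδ1 => ?_⟩
  have h3 := h2 K hn δ μ hδ hδ1
  have h4 := (h1 K hn (fun x => Real.cos (μ * ((x.2 + 1) * Real.log (q x.1))))
    (fun x => (Real.abs_cos_le_one _).trans (by norm_num))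
    (fun p => Real.cos (μ * Real.log (p : ℝ))) (fun p _ => (Real.abs_cos_le_one _).trans (by norm_num))
    1 one_ne_zero (fun v p _ hv _ => by
      have h5 : q v = (p : ℝ) := by
        unfold q
        rw [hv]
      simp only [h5, Nat.cast_zero, zero_add, one_mul]) δ hδ hδ1).2
  have h6 : W (fun p => (pi1 K p : ℝ)) δ μ = ∑' p : Nat.Primes, (pi1 K p : ℝ) *
      Real.cos (μ * Real.log ((p : ℕ) : ℝ)) *
        (Real.log ((p : ℕ) : ℝ) * ((p : ℕ) : ℝ) ^ (-(1 + δ))) := rfl
  rw [h6]
  have h7 := (abs_le.1 h4).1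
  simp only [Nat.cast_one, Real.log_one, add_zero, mul_one] at h7
  have h8 : C1 ≤ C1 * (ld K + Real.log (|μ| + 3)) := by
    have h9 := ld_nonneg K
    have h10 := one_le_log (μ := μ)
    nlinarith
  nlinarith

end Pool.Agent.U433.ZF
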